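import Mathlib
import Pool.Agent.Run7.h886.Frozen

set_option autoImplicit false

/-- A finite graph with a proper 5-colouring in which every vertex sees the four other colours
and in which the colour pairs `01`, `02`, `12`, `34` induce connected subgraphs contains
an odd-`K_5`. -/
theorem Pool.Agent.Results.MP_ccda7a_co.FrozenFiveColouring.result :
    ∀ (V : Type) [Fintype V] (G : SimpleGraph V) (C : G.Coloring (Fin 5)),
      (∀ x i, i ≠ C x → ∃ y, G.Adj x y ∧ C y = i) →
      (G.induce {x | C x = 0 ∨ C x = 1}).Connected →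
      (G.induce {x | C x = 0 ∨ C x = 2}).Connected →
      (G.induce {x | C x = 1 ∨ C x = 2}).Connected →
      (G.induce {x | C x = 3 ∨ C x = 4}).Connected →
      ∃ (f : Fin 5 → Set V) (T : Fin 5 → SimpleGraph V) (e : Fin 5 → Fin 5 → V) (c : V → Bool),
          (∀ i j, i ≠ j → Disjoint (f i) (f j)) ∧
          (∀ i, T i ≤ G) ∧
          (∀ i u v, (T i).Adj u v → u ∈ f i ∧ v ∈ f i ∧ c u ≠ c v) ∧
          (∀ i, ((T i).induce (f i)).IsTree) ∧
          (∀ i j, i ≠ j → e i j ∈ f i ∧ G.Adj (e i j) (e j i) ∧ c (e i j) = c (e j i)) := by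
  intro V _ G C hfall h01 h02 h12 h34
  exact Run7.h886.frozen5 G C (fun x y h => C.valid h) hfall h01 h02 h12 h34
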