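import Mathlib
import Pool.Agent.Run7.h886.Oct4

set_option autoImplicit false

/-- Gerards' conjecture holds for every finite graph which becomes bipartite
after the deletion of at most four vertices. -/
theorem Pool.Agent.Results.MP_ccda7a_co.OddCycleTransversalFour.result :
    ∀ (V : Type) [Fintype V] (G : SimpleGraph V) (U : Finset V), U.card ≤ 4 →
      (G.induce ((U : Set V)ᶜ : Set V)).Colorable 2 →
      (¬ ∃ (f : Fin 5 → Set V) (T : Fin 5 → SimpleGraph V) (e : Fin 5 → Fin 5 → V) (c : V → Bool),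
          (∀ i j, i ≠ j → Disjoint (f i) (f j)) ∧
          (∀ i, T i ≤ G) ∧
          (∀ i u v, (T i).Adj u v → u ∈ f i ∧ v ∈ f i ∧ c u ≠ c v) ∧
          (∀ i, ((T i).induce (f i)).IsTree) ∧
          (∀ i j, i ≠ j → e i j ∈ f i ∧ G.Adj (e i j) (e j i) ∧ c (e i j) = c (e j i))) →
      G.Colorable 4 := by
  intro V _ G U hU h2 hK
  exact Run7.h886.oct4' G U hU h2 hK
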